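import Pool.Agent.R284.RC.Stm

/-!
# Piece RC-BR2 of project RC (MP_ce24da_an): capacity from energy bounds
-/

set_option autoImplicit false
open MeasureTheory Set Filter Topology
open scoped ENNReal NNReal

namespace Pool.Agent.R392.RC

open Pool.Agent.R284.RC

variable {n : ℕ}

/-- The kernel with the additive constant `c`. -/
noncomputable def kc (c p : ℝ) (x y : E n) : ℝ≥0∞ :=
  if x = y then ⊤ else ENNReal.ofReal (c + kr p x y)

theorem kr_meas (p : ℝ) : Measurable (fun z : E n × E n => kr p z.1 z.2) := by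
  unfold kr
  by_cases hp : p = 0
  · simp only [hp, if_true]
    exact (Real.measurable_log.comp (measurable_fst.dist measurable_snd)).neg
  · simp only [hp, if_false]
    exact (measurable_fst.dist measurable_snd).pow_const _

theorem diag_meas : MeasurableSet {z : E n × E n | z.1 = z.2} :=
  measurableSet_eq_fun measurable_fst measurable_snd

theorem ke_meas (p : ℝ) : Measurable (fun z : E n × E n => ke p z.1 z.2) := by
  unfold ke
  refine Measurable.ite diag_meas measurable_const ?_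
  exact ((kr_meas p).abs).ennreal_ofReal

theorem kc_meas (c p : ℝ) : Measurable (fun z : E n × E n => kc c p z.1 z.2) := by
  unfold kc
  refine Measurable.ite diag_meas measurable_const ?_
  exact ((kr_meas p).const_add c).ennreal_ofReal

theorem kr_meas' (p : ℝ) (x : E n) : Measurable (fun y : E n => kr p x y) :=
  Measurable.comp (g := fun z : E n × E n => kr p z.1 z.2) (f := fun y : E n => (x, y)) (kr_meas p)
    measurable_prodMk_left

theorem ke_meas' (p : ℝ) (x : E n) : Measurable (fun y : E n => ke p x y) :=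
  Measurable.comp (g := fun z : E n × E n => ke p z.1 z.2) (f := fun y : E n => (x, y)) (ke_meas p)
    measurable_prodMk_left

theorem kr_self (p : ℝ) (x : E n) : kr p x x = 0 := by
  unfold kr
  by_cases hp : p = 0
  · simp [hp]
  · simp only [hp, if_false, dist_self]
    exact Real.zero_rpow (neg_ne_zero.mpr hp)

/-- Comparison of the two kernels. -/
theorem ke_le (c p : ℝ) (hc : 0 ≤ c) (x y : E n) (h : x ≠ y → 0 ≤ c + kr p x y) :
    ke p x y ≤ kc c p x y + ENNReal.ofReal c := by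
  unfold ke kc
  by_cases hxy : x = y
  · simp [hxy]
  · simp only [hxy, if_false]
    have h0 := h hxy
    rw [← ENNReal.ofReal_add h0 hc]
    apply ENNReal.ofReal_le_ofReal
    rw [abs_le]
    constructor <;> linarith

theorem kc_le (c p : ℝ) (hc : 0 ≤ c) (x y : E n) :
    kc c p x y ≤ ke p x y + ENNReal.ofReal c := by
  unfold ke kc
  by_cases hxy : x = y
  · simp [hxy]
  · simp only [hxy, if_false]
    rw [← ENNReal.ofReal_add (abs_nonneg _) hc]
    apply ENNReal.ofReal_le_ofReal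
    linarith [le_abs_self (kr p x y)]

/-- Finite energy in terms of the kernel `kc`. -/
theorem fin_iff (c p : ℝ) (hc : 0 ≤ c) (K : Set (E n))
    (hpos : ∀ x ∈ K, ∀ y ∈ K, x ≠ y → 0 ≤ c + kr p x y) (σ : Measure (E n))
    [IsProbabilityMeasure σ] (hσ : σ Kᶜ = 0) :
    FinEn p σ σ ↔ ∫⁻ x, ∫⁻ y, kc c p x y ∂σ ∂σ < ⊤ := by
  have hK' : ∀ᵐ x ∂σ, x ∈ K := by
    rw [ae_iff]; exact hσ
  unfold FinEn
  constructor
  · intro h
    calc ∫⁻ x, ∫⁻ y, kc c p x y ∂σ ∂σ ≤ ∫⁻ x, ∫⁻ y, (ke p x y + ENNReal.ofReal c) ∂σ ∂σ :=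
          lintegral_mono fun x => lintegral_mono fun y => kc_le c p hc x y
      _ = ∫⁻ x, ∫⁻ y, ke p x y ∂σ ∂σ + ENNReal.ofReal c := by
          simp_rw [lintegral_add_right _ measurable_const]
          simp
      _ < ⊤ := ENNReal.add_lt_top.mpr ⟨h, ENNReal.ofReal_lt_top⟩
  · intro h
    calc ∫⁻ x, ∫⁻ y, ke p x y ∂σ ∂σ ≤ ∫⁻ x, ∫⁻ y, (kc c p x y + ENNReal.ofReal c) ∂σ ∂σ := by
          apply lintegral_mono_ae
          filter_upwards [hK'] with x hx
          apply lintegral_mono_ae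
          filter_upwards [hK'] with y hy
          exact ke_le c p hc x y (hpos x hx y hy)
      _ = ∫⁻ x, ∫⁻ y, kc c p x y ∂σ ∂σ + ENNReal.ofReal c := by
          simp_rw [lintegral_add_right _ measurable_const]
          simp
      _ < ⊤ := ENNReal.add_lt_top.mpr ⟨h, ENNReal.ofReal_lt_top⟩

/-- The potential in terms of the kernel `kc`. -/
theorem pot_eq (c p : ℝ) (K : Set (E n))
    (hpos : ∀ x ∈ K, ∀ y ∈ K, x ≠ y → 0 ≤ c + kr p x y) (σ : Measure (E n))
    [IsProbabilityMeasure σ] (hK' : ∀ᵐ x ∂σ, x ∈ K) (x : E n) (hx : x ∈ K)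
    (hx1 : ∫⁻ y, ke p x y ∂σ < ⊤) :
    (∫⁻ y, kc c p x y ∂σ).toReal = c + U p σ x := by
  have m1 := ke_meas' p x
  have m3 := kr_meas' p x
  have hn : ∀ᵐ y ∂σ, y ≠ x := by
    filter_upwards [ae_lt_top m1 hx1.ne] with y hy hyx
    rw [hyx] at hy
    unfold ke at hy
    rw [if_pos rfl] at hy
    exact lt_irrefl _ hy
  have hint : Integrable (fun y => kr p x y) σ := by
    refine ⟨m3.aestronglyMeasurable, ?_⟩
    refine lt_of_le_of_lt (lintegral_mono fun y => ?_) hx1
    rw [Real.enorm_eq_ofReal_abs]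
    unfold ke
    by_cases hxy : x = y
    · rw [if_pos hxy]; exact le_top
    · rw [if_neg hxy]
  have e1 : ∫⁻ y, kc c p x y ∂σ = ∫⁻ y, ENNReal.ofReal (c + kr p x y) ∂σ := by
    apply lintegral_congr_ae
    filter_upwards [hn] with y hy
    unfold kc
    rw [if_neg hy.symm]
  have e2 : ∫ y, (c + kr p x y) ∂σ = (∫⁻ y, ENNReal.ofReal (c + kr p x y) ∂σ).toReal := by
    apply integral_eq_lintegral_of_nonneg_ae
    · filter_upwards [hn, hK'] with y hy hyK
      exact hpos x hx y hyK hy.symm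
    · exact (m3.const_add c).aestronglyMeasurable
  have e3 : ∫ y, (c + kr p x y) ∂σ = c + U p σ x := by
    rw [integral_add (integrable_const c) hint, integral_const, probReal_univ, one_smul]
    rfl
  rw [e1, ← e2, e3]

/-- The energy in terms of the kernel `kc`. -/
theorem en_eq (c p : ℝ) (hc : 0 ≤ c) (K : Set (E n))
    (hpos : ∀ x ∈ K, ∀ y ∈ K, x ≠ y → 0 ≤ c + kr p x y) (σ : Measure (E n))
    [IsProbabilityMeasure σ] (hσ : σ Kᶜ = 0) (hf : FinEn p σ σ) :
    (∫⁻ x, ∫⁻ y, kc c p x y ∂σ ∂σ).toReal = c + En p σ σ := by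
  have hK' : ∀ᵐ x ∂σ, x ∈ K := by
    rw [ae_iff]; exact hσ
  have M1 : Measurable (fun x : E n => ∫⁻ y, ke p x y ∂σ) := (ke_meas p).lintegral_prod_right'
  have M2 : Measurable (fun x : E n => ∫⁻ y, kc c p x y ∂σ) := (kc_meas c p).lintegral_prod_right'
  have hJ := (fin_iff c p hc K hpos σ hσ).mp hf
  have h1 : ∀ᵐ x ∂σ, ∫⁻ y, ke p x y ∂σ < ⊤ := ae_lt_top M1 (ne_of_lt hf)
  have h2 : ∀ᵐ x ∂σ, ∫⁻ y, kc c p x y ∂σ < ⊤ := ae_lt_top M2 (ne_of_lt hJ)
  have h3 : (fun x => (∫⁻ y, kc c p x y ∂σ).toReal) =ᵐ[σ] fun x => c + U p σ x := by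
    filter_upwards [hK', h1] with x hx hx1
    exact pot_eq c p K hpos σ hK' x hx hx1
  have hUint : Integrable (fun x => (∫⁻ y, kc c p x y ∂σ).toReal) σ :=
    integrable_toReal_of_lintegral_ne_top M2.aemeasurable (ne_of_lt hJ)
  have e2 : (∫⁻ x, ∫⁻ y, kc c p x y ∂σ ∂σ).toReal = ∫ x, (∫⁻ y, kc c p x y ∂σ).toReal ∂σ :=
    (integral_toReal M2.aemeasurable h2).symm
  have hU : Integrable (fun x => U p σ x) σ := by
    have h4 : Integrable (fun x => (∫⁻ y, kc c p x y ∂σ).toReal - c) σ :=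
      hUint.sub (integrable_const c)
    refine h4.congr ?_
    filter_upwards [h3] with x hx
    rw [hx]; ring
  have e3 : ∫ x, (c + U p σ x) ∂σ = c + En p σ σ := by
    rw [integral_add (integrable_const c) hU, integral_const, probReal_univ, one_smul]
    rfl
  rw [e2, integral_congr_ae h3, e3]

/-- The infimum of the energies. -/
noncomputable def WW (c p : ℝ) (K : Set (E n)) : ℝ≥0∞ :=
  ⨅ (μ : Measure (E n)) (_ : μ Set.univ = 1 ∧ μ Kᶜ = 0), ∫⁻ x, ∫⁻ y, kc c p x y ∂μ ∂μ

theorem WW_lower (c p : ℝ) (hc : 0 ≤ c) (K : Set (E n))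
    (hpos : ∀ x ∈ K, ∀ y ∈ K, x ≠ y → 0 ≤ c + kr p x y) (v : ℝ)
    (hv : ∀ σ : Measure (E n), IsProbabilityMeasure σ → σ Kᶜ = 0 → FinEn p σ σ → v ≤ En p σ σ) :
    ENNReal.ofReal (c + v) ≤ WW c p K := by
  unfold WW
  refine le_iInf fun μ => le_iInf fun hμ => ?_
  have : IsProbabilityMeasure μ := ⟨hμ.1⟩
  by_cases hJ : ∫⁻ x, ∫⁻ y, kc c p x y ∂μ ∂μ < ⊤
  · have hf := (fin_iff c p hc K hpos μ hμ.2).mpr hJ
    have h1 := en_eq c p hc K hpos μ hμ.2 hf
    rw [← ENNReal.ofReal_toReal hJ.ne, h1]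
    apply ENNReal.ofReal_le_ofReal
    linarith [hv μ inferInstance hμ.2 hf]
  · rw [not_lt, top_le_iff] at hJ
    rw [hJ]; exact le_top

theorem WW_lt_top (c p : ℝ) (hc : 0 ≤ c) (K : Set (E n))
    (hpos : ∀ x ∈ K, ∀ y ∈ K, x ≠ y → 0 ≤ c + kr p x y)
    (hv : ∃ σ : Measure (E n), IsProbabilityMeasure σ ∧ σ Kᶜ = 0 ∧ FinEn p σ σ) :
    WW c p K < ⊤ := by
  obtain ⟨σ, hσ1, hσ2, hσ3⟩ := hv
  have hJ := (fin_iff c p hc K hpos σ hσ2).mp hσ3
  refine lt_of_le_of_lt ?_ hJ
  unfold WW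
  exact iInf₂_le σ ⟨hσ1.measure_univ, hσ2⟩

theorem cap_zero (K : Set (E n)) :
    cap 0 K = if WW (Real.log (Metric.diam K + 1)) 0 K = ⊤ then 0
      else (Metric.diam K + 1) * Real.exp (-(WW (Real.log (Metric.diam K + 1)) 0 K).toReal) := by
  have hD : 0 < Metric.diam K + 1 := by linarith [Metric.diam_nonneg (s := K)]
  have e : ∀ x y : E n, (if x = y then (⊤ : ENNReal) else
            ENNReal.ofReal (Real.log ((Metric.diam K + 1) / dist x y))) =
      kc (Real.log (Metric.diam K + 1)) 0 x y := by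
    intro x y
    unfold kc kr
    by_cases hxy : x = y
    · simp [hxy]
    · simp only [hxy, if_false, if_true]
      rw [Real.log_div hD.ne' (dist_ne_zero.mpr hxy), sub_eq_add_neg]
  unfold cap WW
  simp only [if_true, e]

theorem cap_pos_p (p : ℝ) (hp : 0 < p) (K : Set (E n)) :
    cap p K = ((WW 0 p K) ^ (-1 / p)).toReal := by
  have e : ∀ x y : E n, (edist x y) ^ (-p) = kc 0 p x y := by
    intro x y
    unfold kc kr
    by_cases hxy : x = y
    · simp [hxy, ENNReal.zero_rpow_of_neg (neg_lt_zero.mpr hp)]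
    · simp only [hxy, if_false, hp.ne', zero_add]
      rw [edist_dist, ENNReal.ofReal_rpow_of_pos (dist_pos.mpr hxy)]
  unfold cap WW
  simp only [hp.ne', if_false, e]

theorem br2_proof : S_br2 := by
  intro n p hp K hK v hvp hv hex
  rcases hp.eq_or_lt with rfl | hp
  · -- p = 0
    set D := Metric.diam K + 1 with hD
    have hD1 : 1 ≤ D := by linarith [Metric.diam_nonneg (s := K)]
    have hD0 : 0 < D := by linarith
    have hpos : ∀ x ∈ K, ∀ y ∈ K, x ≠ y → 0 ≤ Real.log D + kr 0 x y := by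
      intro x hx y hy hxy
      have h1 : dist x y ≤ D := by
        have := Metric.dist_le_diam_of_mem hK.isBounded hx hy
        linarith
      simp only [kr, if_true]
      have h2 := Real.log_le_log (dist_pos.mpr hxy) h1
      linarith
    have hc : 0 ≤ Real.log D := Real.log_nonneg hD1
    have hW1 := WW_lower (Real.log D) 0 hc K hpos v hv
    have hW2 := WW_lt_top (Real.log D) 0 hc K hpos hex
    rw [cap_zero K, ← hD, if_neg hW2.ne]
    refine ⟨mul_pos hD0 (Real.exp_pos _), ?_⟩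
    have h3 : Real.log D + v ≤ (WW (Real.log D) 0 K).toReal := by
      by_cases h0 : 0 ≤ Real.log D + v
      · have := ENNReal.toReal_mono hW2.ne hW1
        rwa [ENNReal.toReal_ofReal h0] at this
      · linarith [ENNReal.toReal_nonneg (a := WW (Real.log D) 0 K)]
    simp only [Phi, if_true]
    rw [one_div, ← Real.exp_neg]
    calc D * Real.exp (-(WW (Real.log D) 0 K).toReal)
        = Real.exp (Real.log D) * Real.exp (-(WW (Real.log D) 0 K).toReal) := by
          rw [Real.exp_log hD0]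
      _ = Real.exp (Real.log D - (WW (Real.log D) 0 K).toReal) := by
          rw [← Real.exp_add, sub_eq_add_neg]
      _ ≤ Real.exp (-v) := by
          apply Real.exp_le_exp.mpr
          linarith
  · -- p > 0
    have hv0 : 0 < v := hvp hp.ne'
    have hpos : ∀ x ∈ K, ∀ y ∈ K, x ≠ y → 0 ≤ (0 : ℝ) + kr p x y := by
      intro x hx y hy hxy
      simp only [kr, hp.ne', if_false, zero_add]
      positivity
    have hW1 := WW_lower 0 p le_rfl K hpos v hv
    rw [zero_add] at hW1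
    have hW2 := WW_lt_top 0 p le_rfl K hpos hex
    rw [cap_pos_p p hp K]
    have hW3 : v ≤ (WW 0 p K).toReal := by
      have := ENNReal.toReal_mono hW2.ne hW1
      rwa [ENNReal.toReal_ofReal hv0.le] at this
    have hW4 : 0 < (WW 0 p K).toReal := lt_of_lt_of_le hv0 hW3
    rw [← ENNReal.toReal_rpow]
    refine ⟨Real.rpow_pos_of_pos hW4 _, ?_⟩
    simp only [Phi, hp.ne', if_false]
    rw [one_div, ← Real.rpow_neg hv0.le, neg_div]
    apply Real.rpow_le_rpow_of_nonpos hv0 hW3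
    rw [neg_nonpos]
    positivity

end Pool.Agent.R392.RC
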